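import Pool.Agent.Work.MP_db9399_x4.XF4

/-!
# MP_db9399, block LOCB4: sums of signed numbers (helper44)
-/

set_option autoImplicit false

namespace Pool.Agent.Work.MP_db9399_x4_helper44

open Finset Classical
open Pool.Agent.Work.MP_db9399_all (nb)
open Pool.Agent.Work.MP_db9399_lt (us)
open Pool.Agent.Work.MP_db9399_da

universe u

section alg
variable {V : Type u} [Fintype V]

lemma mem_us {F : V → Finset ℕ} {b : ℕ} {v : V} : v ∈ us F b ↔ b ∈ F v := by
  unfold us; simp

lemma mem_qtr {sd pt : V → Bool} {β i : Bool} {v : V} :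
    v ∈ qtr sd pt β i ↔ sd v = β ∧ pt v = i := by
  unfold qtr; simp

lemma mem_sid {sd : V → Bool} {β : Bool} {v : V} : v ∈ sid sd β ↔ sd v = β := by
  unfold sid; simp

lemma mem_prt {pt : V → Bool} {i : Bool} {v : V} : v ∈ prt pt i ↔ pt v = i := by
  unfold prt; simp

lemma mem_nb {G : SimpleGraph V} {v w : V} : w ∈ nb G v ↔ G.Adj v w := by
  unfold nb; simp

/-- a side is the union of two quarters -/
lemma side_card (sd pt : V → Bool) (β : Bool) (A : Finset V) :
    (A ∩ sid sd β).card = (A ∩ qtr sd pt β false).card + (A ∩ qtr sd pt β true).card := by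
  rw [← card_union_of_disjoint]
  · congr 1
    ext v
    simp only [mem_inter, mem_union, mem_qtr, mem_sid]
    cases pt v <;> simp
  · refine disjoint_left.2 fun v h h' => ?_
    have h1 := (mem_qtr.1 (mem_inter.1 h).2).2
    have h2 := (mem_qtr.1 (mem_inter.1 h').2).2
    rw [h1] at h2
    exact absurd h2 (by decide)

lemma sg_split (F : V → Finset ℕ) (sd pt : V → Bool) (b : ℕ) :
    sg F sd b = sgp F sd pt false b + sgp F sd pt true b := by
  unfold sg sgp
  have h1 := side_card sd pt false (us F b)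
  have h2 := side_card sd pt true (us F b)
  rw [inter_comm (sid sd false), inter_comm (sid sd true), h1, h2,
    inter_comm (qtr sd pt false false), inter_comm (qtr sd pt true false),
    inter_comm (qtr sd pt false true), inter_comm (qtr sd pt true true)]
  push_cast
  ring

/-- double counting -/
lemma sum_us (F : V → Finset ℕ) (A : Finset V) (B : Finset ℕ) :
    ∑ b ∈ B, (A ∩ us F b).card = ∑ v ∈ A, (F v ∩ B).card := by
  have h1 : ∀ b ∈ B, (A ∩ us F b).card = ∑ v ∈ A, if b ∈ F v then 1 else 0 := by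
    intro b _
    rw [← sum_filter, ← card_eq_sum_ones]
    congr 1
    ext v
    simp only [mem_inter, mem_us, mem_filter]
  have h2 : ∀ v ∈ A, (F v ∩ B).card = ∑ b ∈ B, if b ∈ F v then 1 else 0 := by
    intro v _
    rw [← sum_filter, ← card_eq_sum_ones]
    congr 1
    ext b
    simp only [mem_inter, mem_filter]
    tauto
  rw [sum_congr rfl h1, sum_congr rfl h2, sum_comm]

/-- the edges from both sides -/
lemma sum_nb_side (G : SimpleGraph V) (sd : V → Bool) (hbip : ∀ v w, G.Adj v w → sd v ≠ sd w) :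
    ∑ v ∈ sid sd false, (nb G v).card = ∑ v ∈ sid sd true, (nb G v).card := by
  have h : ∀ β : Bool, ∀ v ∈ sid sd β, (nb G v).card =
      ∑ w ∈ sid sd (!β), if G.Adj v w then 1 else 0 := by
    intro β v hv
    rw [← sum_filter, ← card_eq_sum_ones]
    congr 1
    ext w
    simp only [mem_nb, mem_filter, mem_sid]
    constructor
    · intro h
      refine ⟨?_, h⟩
      have h1 := hbip v w h
      rw [mem_sid.1 hv] at h1
      cases β <;> cases hw : sd w <;> simp_all
    · exact fun h => h.2
  rw [sum_congr rfl (h false), sum_congr rfl (h true), sum_comm]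
  refine sum_congr (by simp) fun v _ => sum_congr (by simp) fun w _ => ?_
  simp only [G.adj_comm]

/-- the signed numbers of all colours -/
lemma sum_sg (G : SimpleGraph V) (d : ℕ) (sd : V → Bool) (F : V → Finset ℕ)
    (hbip : ∀ v w, G.Adj v w → sd v ≠ sd w) (hdeg : ∀ v, (nb G v).card + (F v).card = d)
    (hF : ∀ v, ∀ b ∈ F v, b < d + 2) (heq : (sid sd false).card = (sid sd true).card) :
    ∑ b ∈ range (d + 2), sg F sd b = 0 := by
  have h1 : ∀ β : Bool, ∑ b ∈ range (d + 2), (sid sd β ∩ us F b).card =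
      ∑ v ∈ sid sd β, (F v).card := by
    intro β
    rw [sum_us]
    refine sum_congr rfl fun v _ => ?_
    congr 1
    exact inter_eq_left.2 fun b hb => mem_range.2 (hF v b hb)
  have h2 : ∀ β : Bool, ∑ v ∈ sid sd β, (nb G v).card + ∑ v ∈ sid sd β, (F v).card =
      (sid sd β).card * d := by
    intro β
    rw [← sum_add_distrib, sum_congr rfl fun v _ => hdeg v, sum_const, smul_eq_mul]
  unfold sg
  rw [sum_sub_distrib]
  have h3 := h2 false
  have h4 := h2 true
  rw [sum_nb_side G sd hbip, heq] at h3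
  have h5 : ∑ v ∈ sid sd false, (F v).card = ∑ v ∈ sid sd true, (F v).card := by omega
  have h6 : ∑ b ∈ range (d + 2), (sid sd false ∩ us F b).card =
      ∑ b ∈ range (d + 2), (sid sd true ∩ us F b).card := by rw [h1, h1, h5]
  have h7 : (∑ b ∈ range (d + 2), ((sid sd false ∩ us F b).card : ℤ)) =
      ∑ b ∈ range (d + 2), ((sid sd true ∩ us F b).card : ℤ) := by exact_mod_cast h6
  rw [h7, sub_self]

/-- the use of `b` after the own colours of `T1` -/
lemma us_Fo_card (F : V → Finset ℕ) (T1 : Finset V) (c1 : V → ℕ) (hc : ∀ v ∈ T1, c1 v ∉ F v)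
    (A : Finset V) (b : ℕ) : (A ∩ us (Fo T1 c1 F) b).card =
      (A ∩ us F b).card + ((T1 ∩ A).filter (fun v => c1 v = b)).card := by
  rw [← card_union_of_disjoint]
  · congr 1
    ext v
    simp only [mem_inter, mem_us, mem_union, mem_filter]
    unfold Fo
    split_ifs with h
    · simp only [mem_insert, h, true_and]
      constructor
      · rintro ⟨h1, h2 | h2⟩
        · exact Or.inr ⟨h1, h2.symm⟩
        · exact Or.inl ⟨h1, h2⟩
      · rintro (⟨h1, h2⟩ | ⟨h1, h2⟩)
        · exact ⟨h1, Or.inr h2⟩
        · exact ⟨h1, Or.inl h2.symm⟩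
    · simp only [h, false_and, or_false]
  · refine disjoint_left.2 fun v h h' => ?_
    have h1 := mem_us.1 (mem_inter.1 h).2
    have h2 := mem_filter.1 h'
    have h3 := hc v (mem_inter.1 h2.1).1
    rw [h2.2] at h3
    exact h3 h1

/-- the signed numbers of the colours outside `P1` -/
lemma sum_sg_last (G : SimpleGraph V) (d : ℕ) (sd : V → Bool) (F : V → Finset ℕ)
    (Q : Bool → Finset ℕ) (P2 : Finset ℕ) (c1 : V → ℕ) (T1 : Finset V)
    (hbip : ∀ v w, G.Adj v w → sd v ≠ sd w) (hdeg : ∀ v, (nb G v).card + (F v).card = d)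
    (hF : ∀ v, ∀ b ∈ F v, b < d + 2) (heq : (sid sd false).card = (sid sd true).card)
    (hQ : ∀ i, Q i ⊆ range (d + 2)) (hP : P2 ⊆ range (d + 2))
    (hc : ∀ v ∈ T1, c1 v ∉ F v) (hP1 : ∀ v ∈ T1, c1 v ∈ P1 d Q P2)
    (hbal : ∀ β, ∀ b ∈ P1 d Q P2, need (Fo T1 c1 F) sd β b = 0) :
    ∑ b ∈ Q false ∪ Q true ∪ P2, sg F sd b =
      ((T1 ∩ sid sd false).card : ℤ) - (T1 ∩ sid sd true).card := by
  have h0 := sum_sg G d sd F hbip hdeg hF heq
  have hsub : Q false ∪ Q true ∪ P2 ⊆ range (d + 2) :=
    union_subset (union_subset (hQ false) (hQ true)) hP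
  rw [← sum_sdiff hsub] at h0
  change ∑ b ∈ P1 d Q P2, sg F sd b + _ = 0 at h0
  have h1 : ∀ b ∈ P1 d Q P2, sg F sd b =
      (((T1 ∩ sid sd true).filter (fun v => c1 v = b)).card : ℤ) -
        ((T1 ∩ sid sd false).filter (fun v => c1 v = b)).card := by
    intro b hb
    have e1 := hbal false b hb
    have e2 := hbal true b hb
    unfold need at e1 e2
    simp only [Bool.not_false, Bool.not_true] at e1 e2
    have e3 := us_Fo_card F T1 c1 hc (sid sd false) b
    have e4 := us_Fo_card F T1 c1 hc (sid sd true) b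
    unfold sg
    omega
  have h2 : ∀ β : Bool, ∑ b ∈ P1 d Q P2,
      (((T1 ∩ sid sd β).filter (fun v => c1 v = b)).card : ℤ) = (T1 ∩ sid sd β).card := by
    intro β
    rw [← Nat.cast_sum]
    congr 1
    exact (card_eq_sum_card_fiberwise (f := c1) (fun v hv =>
      mem_coe.2 (hP1 v (mem_inter.1 (mem_coe.1 hv)).1))).symm
  rw [sum_congr rfl h1, sum_sub_distrib, h2, h2] at h0
  linarith

/-- integers with given sum -/
lemma exists_ints (P : Finset ℕ) (m : ℕ) (N : ℤ) (hN : |N| ≤ m * P.card) :
    ∃ g : ℕ → ℤ, (∀ b ∈ P, |g b| ≤ m) ∧ ∑ b ∈ P, g b = N := by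
  induction P using Finset.induction_on generalizing N with
  | empty =>
    refine ⟨fun _ => 0, fun b hb => absurd hb (notMem_empty _), ?_⟩
    simp only [card_empty, Nat.cast_zero, mul_zero, abs_nonpos_iff] at hN
    simp [hN]
  | insert a P ha ih =>
    rw [card_insert_of_notMem ha] at hN
    push_cast at hN
    have hm : (0 : ℤ) ≤ m := Int.natCast_nonneg m
    have hP : (0 : ℤ) ≤ P.card := Int.natCast_nonneg _
    have hmP : (0 : ℤ) ≤ m * P.card := mul_nonneg hm hP
    set x : ℤ := max (-m) (min m N) with hx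
    have hx1 : |x| ≤ m := by
      rw [abs_le]
      exact ⟨le_max_left _ _, max_le (by linarith) (min_le_left _ _)⟩
    have hx2 : |N - x| ≤ m * P.card := by
      rw [abs_le] at hN ⊢
      have e : (m : ℤ) * (P.card + 1) = m * P.card + m := by ring
      rw [e] at hN
      rcases le_total N m with h | h
      · rw [min_eq_right h] at hx
        rcases le_total (-(m : ℤ)) N with h' | h'
        · rw [max_eq_right h'] at hx
          rw [hx]; constructor <;> linarith
        · rw [max_eq_left h'] at hx
          rw [hx]; constructor <;> linarith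
      · rw [min_eq_left h, max_eq_right (by linarith)] at hx
        rw [hx]; constructor <;> linarith
    obtain ⟨g, hg1, hg2⟩ := ih (N - x) hx2
    refine ⟨fun b => if b = a then x else g b, ?_, ?_⟩
    · intro b hb
      by_cases h : b = a
      · simp only [h, if_true]; exact hx1
      · simp only [h, if_false]
        exact hg1 b ((mem_insert.1 hb).resolve_left h)
    · rw [sum_insert ha]
      simp only [if_true]
      have : ∑ b ∈ P, (if b = a then x else g b) = ∑ b ∈ P, g b := by
        refine sum_congr rfl fun b hb => ?_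
        have : b ≠ a := fun h => ha (h ▸ hb)
        simp [this]
      rw [this, hg2]
      ring

end alg

end Pool.Agent.Work.MP_db9399_x4_helper44
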