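import Pool.Agent.Work.MP_db9399_x4_helper44.Der

/-!
# MP_db9399, block LOCB4: cuts, numbers (helper44)
-/

set_option autoImplicit false

namespace Pool.Agent.Work.MP_db9399_x4_helper44

open Finset Classical
open Pool.Agent.Work.MP_db9399_all (nb)
open Pool.Agent.Work.MP_db9399_lt (us)
open Pool.Agent.Work.MP_db9399_da
open Pool.Agent.Work.MP_db9399_x4

universe u

section cut
variable {V : Type u} [Fintype V]
variable {G : SimpleGraph V} {sd pt : V → Bool} {P2 : Finset ℕ} {Bad : ℕ → Finset V} {Δ : ℕ}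
  {E : Finset (V × V × ℕ)}

lemma mem_nbE {v w : V} : w ∈ nbE E v ↔ ∃ b, RE E v w b := by
  unfold nbE; simp

/-- double counting of the removed edges -/
lemma nbE_swap (S : Finset V) :
    ∑ v ∈ S, (nbE E v \ S).card = ∑ w ∈ univ \ S, (nbE E w ∩ S).card := by
  have h1 : ∀ v ∈ S, (nbE E v \ S).card = ∑ w ∈ univ \ S, if w ∈ nbE E v then 1 else 0 := by
    intro v _
    rw [← sum_filter, ← card_eq_sum_ones]
    congr 1
    ext w
    simp only [mem_sdiff, mem_filter, mem_univ, true_and]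
    tauto
  have h2 : ∀ w ∈ univ \ S, (nbE E w ∩ S).card = ∑ v ∈ S, if v ∈ nbE E w then 1 else 0 := by
    intro w _
    rw [← sum_filter, ← card_eq_sum_ones]
    congr 1
    ext v
    simp only [mem_inter, mem_filter]
    tauto
  rw [sum_congr rfl h1, sum_congr rfl h2, sum_comm]
  refine sum_congr rfl fun w _ => sum_congr rfl fun v _ => ?_
  have : w ∈ nbE E v ↔ v ∈ nbE E w := by
    rw [mem_nbE, mem_nbE]
    exact ⟨fun ⟨b, h⟩ => ⟨b, h.symm⟩, fun ⟨b, h⟩ => ⟨b, h.symm⟩⟩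
  simp only [this]

lemma XE.cut (hX : XE G sd pt P2 Bad Δ E) {ρ : ℝ} (hρ : 0 < ρ)
    (hΔ : (Δ : ℝ) ≤ ρ / 4 * Fintype.card V)
    (hc : ∀ S : Finset V, ρ * S.card * (univ \ S).card ≤ ∑ v ∈ S, ((nb G v \ S).card : ℝ))
    (S : Finset V) : ρ / 2 * S.card * (univ \ S).card ≤
      ∑ v ∈ S, ((nb (Gp G E) v \ S).card : ℝ) := by
  have h1 : ∀ v ∈ S, ((nb G v \ S).card : ℝ) ≤ (nb (Gp G E) v \ S).card + (nbE E v \ S).card := by
    intro v _
    have : nb G v \ S ⊆ (nb (Gp G E) v \ S) ∪ (nbE E v \ S) := by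
      intro w hw
      rw [nb_Gp]
      simp only [mem_union, mem_sdiff] at hw ⊢
      tauto
    exact_mod_cast (card_le_card this).trans (card_union_le _ _)
  have h2 := (hc S).trans (sum_le_sum h1)
  rw [sum_add_distrib] at h2
  have hd : ∀ v, (nbE E v).card ≤ Δ := fun v => (hX.nbE_card v).trans_le (hX.col_card v)
  have h3 : ((∑ v ∈ S, (nbE E v \ S).card : ℕ) : ℝ) ≤ S.card * Δ := by
    have : ∑ v ∈ S, (nbE E v \ S).card ≤ S.card * Δ := by
      rw [← smul_eq_mul]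
      exact sum_le_card_nsmul _ _ _ fun v _ => (card_le_card sdiff_subset).trans (hd v)
    exact_mod_cast this
  have h4 : ((∑ v ∈ S, (nbE E v \ S).card : ℕ) : ℝ) ≤ (univ \ S).card * Δ := by
    rw [nbE_swap]
    have : ∑ w ∈ univ \ S, (nbE E w ∩ S).card ≤ (univ \ S).card * Δ := by
      rw [← smul_eq_mul]
      exact sum_le_card_nsmul _ _ _ fun v _ => (card_le_card inter_subset_left).trans (hd v)
    exact_mod_cast this
  have h5 : (Fintype.card V : ℝ) = S.card + (univ \ S).card := by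
    have := card_sdiff_add_card_eq_card (subset_univ S)
    rw [card_univ] at this
    have h6 : ((univ \ S).card : ℝ) + S.card = Fintype.card V := by exact_mod_cast this
    linarith
  rw [Nat.cast_sum] at h3 h4
  set s : ℝ := (S.card : ℝ)
  set s' : ℝ := ((univ \ S).card : ℝ)
  have hs : 0 ≤ s := Nat.cast_nonneg _
  have hs' : 0 ≤ s' := Nat.cast_nonneg _
  have hD : (0 : ℝ) ≤ Δ := Nat.cast_nonneg _
  rw [h5] at hΔ
  have h7 : ∑ v ∈ S, ((nbE E v \ S).card : ℝ) ≤ ρ / 2 * s * s' := by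
    rcases le_total s s' with h | h
    · refine h3.trans ?_
      have : (Δ : ℝ) ≤ ρ / 2 * s' := by nlinarith
      calc s * Δ ≤ s * (ρ / 2 * s') := mul_le_mul_of_nonneg_left this hs
        _ = _ := by ring
    · refine h4.trans ?_
      have : (Δ : ℝ) ≤ ρ / 2 * s := by nlinarith
      calc s' * Δ ≤ s' * (ρ / 2 * s) := mul_le_mul_of_nonneg_left this hs'
        _ = _ := by ring
  linarith

end cut

section num

/-- the numbers -/
structure NumB (d K : ℕ) (ρ π θ θ3 : ℝ) : Prop where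
  ρ1 : ρ ≤ 1
  π0 : 0 < π
  θ0 : 0 < θ
  π1 : π ≤ 1
  πρ : π ≤ ρ
  θρ : θ ≤ ρ / 10 ^ 5
  θπ : θ ≤ π
  θt : 2000 * θ ≤ θ3
  dK : 4 * (K : ℝ) + 1 ≤ θ * d
  dθ : 1 ≤ θ * d
  dπ : 10 ^ 4 ≤ π * d
  d3 : 5 * (K : ℝ) + 1 ≤ θ3 * d

lemma NumB.sat {d K : ℕ} {ρ π θ θ3 : ℝ} (h : NumB d K ρ π θ θ3) (p : ℕ)
    (hp : (p : ℝ) ≤ 2 * π * d) :
    p * ⌊2 * θ * d⌋₊ ≤ ⌊π * d / 100⌋₊ * ⌊1000 * θ * d⌋₊ := by
  have hπ := h.π0
  have hθ := h.θ0
  have hd : (0 : ℝ) ≤ d := Nat.cast_nonneg _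
  have h1 : ((⌊2 * θ * d⌋₊ : ℕ) : ℝ) ≤ 2 * θ * d := Nat.floor_le (by positivity)
  have h2 : π * d / 100 - 1 < (⌊π * d / 100⌋₊ : ℝ) := Nat.sub_one_lt_floor _
  have h3 : 1000 * θ * d - 1 < (⌊1000 * θ * d⌋₊ : ℝ) := Nat.sub_one_lt_floor _
  have h4 := h.dθ
  have h5 := h.dπ
  have h6 : (p : ℝ) * (⌊2 * θ * d⌋₊ : ℕ) ≤ (2 * (π * d)) * (2 * (θ * d)) := by
    refine mul_le_mul (by linarith) (by linarith) (Nat.cast_nonneg _) (by positivity)
  have h7 : (π * d / 200) * (999 * (θ * d)) ≤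
      (⌊π * d / 100⌋₊ : ℝ) * (⌊1000 * θ * d⌋₊ : ℝ) := by
    refine mul_le_mul (by linarith) (by linarith) (by positivity) (Nat.cast_nonneg _)
  have h8 : (2 * (π * d)) * (2 * (θ * d)) ≤ (π * d / 200) * (999 * (θ * d)) := by
    have : 0 ≤ (π * d) * (θ * d) := by positivity
    nlinarith
  have h9 := h6.trans (h8.trans h7)
  exact_mod_cast h9

lemma NumB.Δ {d K : ℕ} {ρ π θ θ3 : ℝ} (h : NumB d K ρ π θ θ3) : 0 < ⌊1000 * θ * d⌋₊ := by
  refine Nat.floor_pos.2 ?_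
  have := h.dθ
  linarith

lemma NumB.A {d K : ℕ} {ρ π θ θ3 : ℝ} (h : NumB d K ρ π θ θ3) :
    ((⌊2 * θ * d⌋₊ + ⌊π * d / 100⌋₊ : ℕ) : ℝ) < ρ * d - θ * d := by
  have hπ := h.π0
  have hθ := h.θ0
  have hd : (0 : ℝ) < d := by
    by_contra h'
    have h1 : (d : ℝ) = 0 := le_antisymm (not_lt.1 h') (Nat.cast_nonneg _)
    have h2 := h.dπ
    rw [h1] at h2
    norm_num at h2
  have h1 : ((⌊2 * θ * d⌋₊ : ℕ) : ℝ) ≤ 2 * θ * d := Nat.floor_le (by positivity)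
  have h2 : (⌊π * d / 100⌋₊ : ℝ) ≤ π * d / 100 := Nat.floor_le (by positivity)
  have h3 := mul_le_mul_of_nonneg_right h.πρ hd.le
  have h4 := mul_le_mul_of_nonneg_right h.θρ hd.le
  have h5 : 0 < π * d := by positivity
  push_cast
  linarith

lemma NumB.B {d K : ℕ} {ρ π θ θ3 : ℝ} (h : NumB d K ρ π θ θ3) :
    ((⌊2 * θ * d⌋₊ + ⌊π * d / 100⌋₊ + ⌊1000 * θ * d⌋₊ : ℕ) : ℝ) < d / 2 - 2 * (θ * d) := by
  have hπ := h.π0
  have hθ := h.θ0
  have hd : (0 : ℝ) < d := by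
    by_contra h'
    have h1 : (d : ℝ) = 0 := le_antisymm (not_lt.1 h') (Nat.cast_nonneg _)
    have h2 := h.dπ
    rw [h1] at h2
    norm_num at h2
  have h1 : ((⌊2 * θ * d⌋₊ : ℕ) : ℝ) ≤ 2 * θ * d := Nat.floor_le (by positivity)
  have h2 : (⌊π * d / 100⌋₊ : ℝ) ≤ π * d / 100 := Nat.floor_le (by positivity)
  have h2' : (⌊1000 * θ * d⌋₊ : ℝ) ≤ 1000 * θ * d := Nat.floor_le (by positivity)
  have h3 := mul_le_mul_of_nonneg_right h.π1 hd.le
  have h4 := mul_le_mul_of_nonneg_right h.θρ hd.le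
  have h5 := mul_le_mul_of_nonneg_right h.ρ1 hd.le
  push_cast
  linarith

end num

end Pool.Agent.Work.MP_db9399_x4_helper44
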