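import Pool.Agent.Work.MP_db9399_x4_helper44.XPE
import Pool.Agent.Work.MP_db9399_x4_helper44.Alg

/-!
# MP_db9399, block LOCB4: the graph and the lists after XPE (helper44)
-/

set_option autoImplicit false

namespace Pool.Agent.Work.MP_db9399_x4_helper44

open Finset Classical
open Pool.Agent.Work.MP_db9399_all (nb)
open Pool.Agent.Work.MP_db9399_lt (us)
open Pool.Agent.Work.MP_db9399_da

universe u

section der
variable {V : Type u}

/-- `v w` has got the colour `b` -/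
def RE (E : Finset (V × V × ℕ)) (v w : V) (b : ℕ) : Prop := (v, w, b) ∈ E ∨ (w, v, b) ∈ E

/-- the remaining graph -/
def Gp (G : SimpleGraph V) (E : Finset (V × V × ℕ)) : SimpleGraph V where
  Adj v w := G.Adj v w ∧ ∀ b, ¬ RE E v w b
  symm := ⟨fun _ _ h => ⟨h.1.symm, fun b h' => h.2 b (Or.symm h')⟩⟩
  loopless := ⟨fun v h => G.loopless.irrefl v h.1⟩

/-- the colours of the edges of `E` at `v` -/
noncomputable def colE (E : Finset (V × V × ℕ)) (v : V) : Finset ℕ :=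
  (E.filter (fun p => p.1 = v ∨ p.2.1 = v)).image (fun p => p.2.2)

/-- the new lists of used colours -/
noncomputable def Fp' (F : V → Finset ℕ) (E : Finset (V × V × ℕ)) (v : V) : Finset ℕ :=
  F v ∪ colE E v

lemma RE.symm {E : Finset (V × V × ℕ)} {v w : V} {b : ℕ} (h : RE E v w b) : RE E w v b :=
  Or.symm h

lemma mem_colE {E : Finset (V × V × ℕ)} {v : V} {b : ℕ} : b ∈ colE E v ↔ ∃ w, RE E v w b := by
  unfold colE RE
  simp only [mem_image, mem_filter]
  constructor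
  · rintro ⟨⟨x, y, b'⟩, ⟨h1, h2⟩, rfl⟩
    rcases h2 with h2 | h2
    · simp only at h2; subst h2; exact ⟨y, Or.inl h1⟩
    · simp only at h2; subst h2; exact ⟨x, Or.inr h1⟩
  · rintro ⟨w, h | h⟩
    · exact ⟨(v, w, b), ⟨h, Or.inl rfl⟩, rfl⟩
    · exact ⟨(w, v, b), ⟨h, Or.inr rfl⟩, rfl⟩

variable [Fintype V]
variable {G : SimpleGraph V} {sd pt : V → Bool} {P2 : Finset ℕ} {Bad : ℕ → Finset V} {Δ : ℕ}
  {E : Finset (V × V × ℕ)}

omit [Fintype V] in
lemma XE.info (hX : XE G sd pt P2 Bad Δ E) {v w : V} {b : ℕ} (h : RE E v w b) :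
    G.Adj v w ∧ sd v ≠ sd w ∧ pt w = (!(pt v)) ∧ b ∈ P2 ∧ v ∉ Bad b ∧ w ∉ Bad b := by
  rcases h with h | h
  · obtain ⟨h1, h2, h3, h4, h5, h6, h7⟩ := hX.adj _ _ _ h
    exact ⟨h1, by rw [h2, h3]; decide, h4, h5, h6, h7⟩
  · obtain ⟨h1, h2, h3, h4, h5, h6, h7⟩ := hX.adj _ _ _ h
    exact ⟨h1.symm, by rw [h2, h3]; decide, by rw [h4]; simp, h5, h7, h6⟩

omit [Fintype V] in
lemma XE.side (hX : XE G sd pt P2 Bad Δ E) {v w : V} {b : ℕ} (h : RE E v w b)
    (hv : sd v = false) : (v, w, b) ∈ E := by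
  rcases h with h | h
  · exact h
  · have := (hX.adj _ _ _ h).2.2.1
    rw [hv] at this
    exact absurd this (by decide)

omit [Fintype V] in
lemma XE.side' (hX : XE G sd pt P2 Bad Δ E) {v w : V} {b : ℕ} (h : RE E v w b)
    (hv : sd v = true) : (w, v, b) ∈ E := by
  rcases h with h | h
  · have := (hX.adj _ _ _ h).2.1
    rw [hv] at this
    exact absurd this (by decide)
  · exact h

omit [Fintype V] in
lemma XE.ccol (hX : XE G sd pt P2 Bad Δ E) {v w : V} {b b' : ℕ} (h : RE E v w b)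
    (h' : RE E v w b') : b = b' := by
  cases hv : sd v
  · exact hX.one _ _ _ _ (hX.side h hv) (hX.side h' hv)
  · exact hX.one _ _ _ _ (hX.side' h hv) (hX.side' h' hv)

omit [Fintype V] in
lemma XE.cnb (hX : XE G sd pt P2 Bad Δ E) {v w w' : V} {b : ℕ} (h : RE E v w b)
    (h' : RE E v w' b) : w = w' := by
  cases hv : sd v
  · exact hX.r _ _ _ _ (hX.side h hv) (hX.side h' hv)
  · exact hX.l _ _ _ _ (hX.side' h hv) (hX.side' h' hv)

omit [Fintype V] in
lemma XE.col_card (hX : XE G sd pt P2 Bad Δ E) (v : V) : (colE E v).card ≤ Δ := by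
  cases hv : sd v
  · refine le_trans ?_ (hX.dx v)
    refine le_trans card_image_le (card_le_card fun p hp => ?_)
    obtain ⟨h1, h2⟩ := mem_filter.1 hp
    refine mem_filter.2 ⟨h1, h2.resolve_right fun h => ?_⟩
    have := (hX.adj p.1 p.2.1 p.2.2 h1).2.2.1
    rw [h, hv] at this
    exact absurd this (by decide)
  · refine le_trans ?_ (hX.dy v)
    refine le_trans card_image_le (card_le_card fun p hp => ?_)
    obtain ⟨h1, h2⟩ := mem_filter.1 hp
    refine mem_filter.2 ⟨h1, h2.resolve_left fun h => ?_⟩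
    have := (hX.adj p.1 p.2.1 p.2.2 h1).2.1
    rw [h, hv] at this
    exact absurd this (by decide)

/-- neighbours of `v` in `E` -/
noncomputable def nbE (E : Finset (V × V × ℕ)) (v : V) : Finset V :=
  univ.filter (fun w => ∃ b, RE E v w b)

lemma XE.nbE_card (hX : XE G sd pt P2 Bad Δ E) (v : V) : (nbE E v).card = (colE E v).card := by
  refine le_antisymm ?_ ?_
  · refine card_le_card_of_forall_subsingleton (fun w b => RE E v w b) ?_ ?_
    · intro w hw
      obtain ⟨b, hb⟩ := (mem_filter.1 hw).2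
      exact ⟨b, mem_colE.2 ⟨w, hb⟩, hb⟩
    · intro b _ w hw w' hw'
      exact hX.cnb hw.2 hw'.2
  · refine card_le_card_of_forall_subsingleton (fun b w => RE E v w b) ?_ ?_
    · intro b hb
      obtain ⟨w, hw⟩ := mem_colE.1 hb
      exact ⟨w, mem_filter.2 ⟨mem_univ _, b, hw⟩, hw⟩
    · intro w _ b hb b' hb'
      exact hX.ccol hb.2 hb'.2

lemma nb_Gp (v : V) : nb (Gp G E) v = nb G v \ nbE E v := by
  ext w
  simp only [mem_nb, mem_sdiff, nbE, mem_filter, mem_univ, true_and]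
  constructor
  · exact fun h => ⟨h.1, fun ⟨b, hb⟩ => h.2 b hb⟩
  · exact fun h => ⟨h.1, fun b hb => h.2 ⟨b, hb⟩⟩

lemma XE.nbE_sub (hX : XE G sd pt P2 Bad Δ E) (v : V) : nbE E v ⊆ nb G v := by
  intro w hw
  obtain ⟨b, hb⟩ := (mem_filter.1 hw).2
  exact mem_nb.2 (hX.info hb).1

/-- the lists are disjoint from the new colours -/
lemma XE.disj (hX : XE G sd pt P2 Bad Δ E) {F : V → Finset ℕ} (hB : ∀ b, us F b ⊆ Bad b) (v : V) :
    Disjoint (F v) (colE E v) := by
  refine disjoint_left.2 fun b hb hb' => ?_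
  obtain ⟨w, hw⟩ := mem_colE.1 hb'
  exact (hX.info hw).2.2.2.2.1 (hB b (mem_us.2 hb))

lemma XE.deg (hX : XE G sd pt P2 Bad Δ E) {F : V → Finset ℕ} (hB : ∀ b, us F b ⊆ Bad b) (v : V) :
    (nb (Gp G E) v).card + (Fp' F E v).card = (nb G v).card + (F v).card := by
  rw [nb_Gp, card_sdiff_of_subset (hX.nbE_sub v)]
  unfold Fp'
  rw [card_union_of_disjoint (hX.disj hB v), hX.nbE_card v]
  have := card_le_card (hX.nbE_sub v)
  rw [hX.nbE_card v] at this
  omega

/-- inside a part nothing changes -/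
lemma XE.nb_part (hX : XE G sd pt P2 Bad Δ E) (v : V) :
    nb (Gp G E) v ∩ prt pt (pt v) = nb G v ∩ prt pt (pt v) := by
  ext w
  simp only [mem_inter, mem_nb, mem_prt]
  constructor
  · exact fun h => ⟨h.1.1, h.2⟩
  · rintro ⟨h1, h2⟩
    refine ⟨⟨h1, fun b hb => ?_⟩, h2⟩
    have := (hX.info hb).2.2.1
    rw [h2] at this
    cases h : pt v <;> rw [h] at this <;> exact absurd this (by decide)

/-- numbers of the new uses of `b` -/
lemma XE.new_false (hX : XE G sd pt P2 Bad Δ E) (i : Bool) (b : ℕ) :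
    ((qtr sd pt false i).filter (fun v => b ∈ colE E v)).card = cnt pt E i b := by
  unfold cnt
  symm
  refine card_bij (fun p _ => p.1) ?_ ?_ ?_
  · intro p hp
    obtain ⟨h1, h2, h3⟩ := mem_filter.1 hp
    have h4 := hX.adj p.1 p.2.1 p.2.2 h1
    refine mem_filter.2 ⟨mem_qtr.2 ⟨h4.2.1, h2⟩, mem_colE.2 ⟨p.2.1, Or.inl ?_⟩⟩
    rw [← h3]; exact h1
  · rintro ⟨x, y, b1⟩ hp ⟨x', y', b2⟩ hp' hxx
    obtain ⟨h1, h2, h3⟩ := mem_filter.1 hp
    obtain ⟨h1', h2', h3'⟩ := mem_filter.1 hp'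
    simp only at hxx h3 h3'
    subst hxx; subst h3; subst h3'
    rw [hX.r _ _ _ _ h1 h1']
  · intro v hv
    obtain ⟨h1, h2⟩ := mem_filter.1 hv
    obtain ⟨w, hw⟩ := mem_colE.1 h2
    have h3 := mem_qtr.1 h1
    exact ⟨(v, w, b), mem_filter.2 ⟨hX.side hw h3.1, h3.2, rfl⟩, rfl⟩

lemma XE.new_true (hX : XE G sd pt P2 Bad Δ E) (i : Bool) (b : ℕ) :
    ((qtr sd pt true i).filter (fun v => b ∈ colE E v)).card = cnt pt E (!i) b := by
  unfold cnt
  symm
  refine card_bij (fun p _ => p.2.1) ?_ ?_ ?_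
  · intro p hp
    obtain ⟨h1, h2, h3⟩ := mem_filter.1 hp
    have h4 := hX.adj p.1 p.2.1 p.2.2 h1
    refine mem_filter.2 ⟨mem_qtr.2 ⟨h4.2.2.1, ?_⟩, mem_colE.2 ⟨p.1, Or.inr ?_⟩⟩
    · rw [h4.2.2.2.1, h2]; simp
    · rw [← h3]; exact h1
  · rintro ⟨x, y, b1⟩ hp ⟨x', y', b2⟩ hp' hxx
    obtain ⟨h1, h2, h3⟩ := mem_filter.1 hp
    obtain ⟨h1', h2', h3'⟩ := mem_filter.1 hp'
    simp only at hxx h3 h3'
    subst hxx; subst h3; subst h3'
    rw [hX.l _ _ _ _ h1 h1']
  · intro v hv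
    obtain ⟨h1, h2⟩ := mem_filter.1 hv
    obtain ⟨w, hw⟩ := mem_colE.1 h2
    have h3 := mem_qtr.1 h1
    have h4 := (hX.info hw).2.2.1
    exact ⟨(w, v, b), mem_filter.2 ⟨hX.side' hw h3.1, by rw [h4, h3.2], rfl⟩, rfl⟩

lemma XE.us_card (hX : XE G sd pt P2 Bad Δ E) {F : V → Finset ℕ} (hB : ∀ b, us F b ⊆ Bad b)
    (A : Finset V) (b : ℕ) :
    (A ∩ us (Fp' F E) b).card = (A ∩ us F b).card + (A.filter (fun v => b ∈ colE E v)).card := by
  rw [← card_union_of_disjoint]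
  · congr 1
    ext v
    simp only [mem_inter, mem_us, mem_union, mem_filter, Fp']
    tauto
  · refine disjoint_left.2 fun v h h' => ?_
    exact disjoint_left.1 (hX.disj hB v) (mem_us.1 (mem_inter.1 h).2) (mem_filter.1 h').2

/-- the new signed numbers -/
lemma XE.sgp (hX : XE G sd pt P2 Bad Δ E) {F : V → Finset ℕ} (hB : ∀ b, us F b ⊆ Bad b)
    (i : Bool) (b : ℕ) :
    sgp (Fp' F E) sd pt i b = sgp F sd pt i b + cnt pt E i b - cnt pt E (!i) b := by
  unfold MP_db9399_da.sgp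
  rw [hX.us_card hB, hX.us_card hB, hX.new_false, hX.new_true]
  push_cast
  ring

/-- colours outside `P2` -/
lemma XE.us_eq (hX : XE G sd pt P2 Bad Δ E) (F : V → Finset ℕ) {b : ℕ} (hb : b ∉ P2) :
    us (Fp' F E) b = us F b := by
  ext v
  simp only [mem_us, Fp', mem_union]
  refine or_iff_left fun h => ?_
  obtain ⟨w, hw⟩ := mem_colE.1 h
  exact hb (hX.info hw).2.2.2.1

/-- putting the colours together -/
lemma XE.pef (hX : XE G sd pt P2 Bad Δ E) {F : V → Finset ℕ} (hB : ∀ b, us F b ⊆ Bad b) {d : ℕ}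
    {c : V → ℕ} {t : V → V → ℕ} (hP : P2 ⊆ range (d + 2))
    (hc : ∀ v, c v ∉ colE E v)
    (ht : PEF (Gp G E) d (fun v => insert (c v) (Fp' F E v)) t) :
    ∃ t' : V → V → ℕ, PEF G d (fun v => insert (c v) (F v)) t' := by
  obtain ⟨ht1, ht2, ht3⟩ := ht
  have hch : ∀ v w, (∃ b, RE E v w b) → ∃ b, RE E v w b := fun _ _ h => h
  let e : V → V → ℕ := fun v w => if h : ∃ b, RE E v w b then h.choose else t v w
  have he1 : ∀ v w b, RE E v w b → e v w = b := by
    intro v w b h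
    have h' : ∃ b, RE E v w b := ⟨b, h⟩
    show (if h : ∃ b, RE E v w b then h.choose else t v w) = b
    rw [dif_pos h']
    exact hX.ccol h'.choose_spec h
  have he2 : ∀ v w, (¬ ∃ b, RE E v w b) → e v w = t v w := by
    intro v w h
    show (if h : ∃ b, RE E v w b then h.choose else t v w) = t v w
    rw [dif_neg h]
  have hG : ∀ v w, G.Adj v w → (¬ ∃ b, RE E v w b) → (Gp G E).Adj v w := fun v w h h' =>
    ⟨h, fun b hb => h' ⟨b, hb⟩⟩
  refine ⟨e, ?_, ?_, ?_⟩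
  · intro v w
    by_cases h : ∃ b, RE E v w b
    · obtain ⟨b, hb⟩ := h
      rw [he1 v w b hb, he1 w v b hb.symm]
    · rw [he2 v w h, he2 w v (fun ⟨b, hb⟩ => h ⟨b, hb.symm⟩), ht1]
  · intro v w hvw
    by_cases h : ∃ b, RE E v w b
    · obtain ⟨b, hb⟩ := h
      rw [he1 v w b hb]
      have hi := hX.info hb
      refine ⟨mem_range.1 (hP hi.2.2.2.1), fun h' => ?_⟩
      rcases mem_insert.1 h' with h' | h'
      · exact hc v (h' ▸ mem_colE.2 ⟨w, hb⟩)
      · exact hi.2.2.2.2.1 (hB b (mem_us.2 h'))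
    · rw [he2 v w h]
      obtain ⟨h1, h2⟩ := ht2 v w (hG v w hvw h)
      refine ⟨h1, fun h' => h2 ?_⟩
      rcases mem_insert.1 h' with h' | h'
      · exact mem_insert.2 (Or.inl h')
      · exact mem_insert.2 (Or.inr (mem_union_left _ h'))
  · intro v w hw w' hw' hww
    have hv := mem_nb.1 (mem_coe.1 hw)
    have hv' := mem_nb.1 (mem_coe.1 hw')
    by_cases h : ∃ b, RE E v w b <;> by_cases h' : ∃ b, RE E v w' b
    · obtain ⟨b, hb⟩ := h
      obtain ⟨b', hb'⟩ := h'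
      rw [he1 v w b hb, he1 v w' b' hb'] at hww
      subst hww
      exact hX.cnb hb hb'
    · obtain ⟨b, hb⟩ := h
      rw [he1 v w b hb, he2 v w' h'] at hww
      exfalso
      refine (ht2 v w' (hG v w' hv' h')).2 ?_
      rw [← hww]
      exact mem_insert.2 (Or.inr (mem_union_right _ (mem_colE.2 ⟨w, hb⟩)))
    · obtain ⟨b, hb⟩ := h'
      rw [he1 v w' b hb, he2 v w h] at hww
      exfalso
      refine (ht2 v w (hG v w hv h)).2 ?_
      rw [hww]
      exact mem_insert.2 (Or.inr (mem_union_right _ (mem_colE.2 ⟨w', hb⟩)))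
    · rw [he2 v w h, he2 v w' h'] at hww
      exact ht3 v (mem_coe.2 (mem_nb.2 (hG v w hv h))) (mem_coe.2 (mem_nb.2 (hG v w' hv' h'))) hww

end der

end Pool.Agent.Work.MP_db9399_x4_helper44
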