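import Pool.Agent.Work.MP_db9399_x4.XF4

/-!
# MP_db9399, block LOCB4, part XPE: few bulk edges between the parts get colours of `P2` (helper44)

`E` = set of triples `(x, y, b)`: the edge `x y` (`x` on the side `false`, `y` on the side `true`, in
different parts) gets the colour `b ∈ P2`. Greedy: a maximal `E` has the wanted numbers.
-/

set_option autoImplicit false

namespace Pool.Agent.Work.MP_db9399_x4_helper44

open Finset Classical
open Pool.Agent.Work.MP_db9399_all (nb)
open Pool.Agent.Work.MP_db9399_da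

universe u

section xpe
variable {V : Type u} [Fintype V]

/-- admissible sets of coloured edges between the parts -/
structure XE (G : SimpleGraph V) (sd pt : V → Bool) (P2 : Finset ℕ) (Bad : ℕ → Finset V) (Δ : ℕ)
    (E : Finset (V × V × ℕ)) : Prop where
  adj : ∀ x y b, (x, y, b) ∈ E → G.Adj x y ∧ sd x = false ∧ sd y = true ∧ pt y = (!(pt x)) ∧
    b ∈ P2 ∧ x ∉ Bad b ∧ y ∉ Bad b
  one : ∀ x y b b', (x, y, b) ∈ E → (x, y, b') ∈ E → b = b'
  r : ∀ x y y' b, (x, y, b) ∈ E → (x, y', b) ∈ E → y = y'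
  l : ∀ x x' y b, (x, y, b) ∈ E → (x', y, b) ∈ E → x = x'
  dx : ∀ x, (E.filter (fun p => p.1 = x)).card ≤ Δ
  dy : ∀ y, (E.filter (fun p => p.2.1 = y)).card ≤ Δ

/-- number of the edges of colour `b` with `x` in the part `i` -/
noncomputable def cnt (pt : V → Bool) (E : Finset (V × V × ℕ)) (i : Bool) (b : ℕ) : ℕ :=
  (E.filter (fun p => pt p.1 = i ∧ p.2.2 = b)).card

omit [Fintype V] in
lemma cnt_col (pt : V → Bool) (E : Finset (V × V × ℕ)) (b : ℕ) :
    (E.filter (fun p => p.2.2 = b)).card = cnt pt E false b + cnt pt E true b := by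
  unfold cnt
  rw [← card_union_of_disjoint]
  · congr 1
    ext p
    simp only [mem_filter, mem_union]
    constructor
    · rintro ⟨h1, h2⟩
      cases h : pt p.1
      · exact Or.inl ⟨h1, rfl, h2⟩
      · exact Or.inr ⟨h1, rfl, h2⟩
    · rintro (⟨h1, _, h2⟩ | ⟨h1, _, h2⟩) <;> exact ⟨h1, h2⟩
  · refine disjoint_left.2 fun p h h' => ?_
    have h1 := (mem_filter.1 h).2.1
    have h2 := (mem_filter.1 h').2.1
    rw [h1] at h2
    exact absurd h2 (by decide)

omit [Fintype V] in
/-- few vertices have many triples -/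
lemma sat_card {α : Type*} [Fintype α] (E : Finset (V × V × ℕ)) (f : V × V × ℕ → α) (Δ σ : ℕ)
    (hΔ : 0 < Δ) (hE : E.card ≤ σ * Δ) :
    (univ.filter (fun x => Δ ≤ (E.filter (fun p => f p = x)).card)).card ≤ σ := by
  have h1 : (univ.filter (fun x => Δ ≤ (E.filter (fun p => f p = x)).card)).card * Δ ≤
      E.card := by
    calc (univ.filter (fun x => Δ ≤ (E.filter (fun p => f p = x)).card)).card * Δ
        = (univ.filter (fun x => Δ ≤ (E.filter (fun p => f p = x)).card)).card • Δ := by
          rw [smul_eq_mul]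
      _ ≤ ∑ x ∈ univ.filter (fun x => Δ ≤ (E.filter (fun p => f p = x)).card),
          (E.filter (fun p => f p = x)).card :=
          card_nsmul_le_sum _ _ _ fun x hx => (mem_filter.1 hx).2
      _ ≤ ∑ x, (E.filter (fun p => f p = x)).card :=
          sum_le_sum_of_subset (filter_subset _ _)
      _ = E.card := (card_eq_sum_card_fiberwise fun _ _ => mem_coe.2 (mem_univ _)).symm
  exact Nat.le_of_mul_le_mul_right (h1.trans hE) hΔ

/-- **XPE**, abstract form -/
theorem xpe (G : SimpleGraph V) (sd pt : V → Bool) (P2 : Finset ℕ) (Bad : ℕ → Finset V)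
    (Δ σ μ : ℕ) (m : Bool → ℕ → ℕ) (hbip : ∀ v w, G.Adj v w → sd v ≠ sd w) (hΔ : 0 < Δ)
    (hμ : ∀ b ∈ P2, m false b + m true b ≤ μ)
    (hM : ∑ b ∈ P2, (m false b + m true b) ≤ σ * Δ)
    (hA : ∀ i, ∀ b ∈ P2, μ + σ < (qtr sd pt false i \ Bad b).card)
    (hB : ∀ x i, ∀ b ∈ P2, sd x = false → μ + σ + Δ < ((nb G x ∩ prt pt i) \ Bad b).card) :
    ∃ E : Finset (V × V × ℕ), XE G sd pt P2 Bad Δ E ∧
      ∀ i, ∀ b ∈ P2, cnt pt E i b = m i b := by
  set 𝓔 := ((univ ×ˢ (univ ×ˢ P2) : Finset (V × V × ℕ)).powerset).filter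
    (fun E => XE G sd pt P2 Bad Δ E ∧ ∀ i, ∀ b ∈ P2, cnt pt E i b ≤ m i b) with h𝓔
  have hne : 𝓔.Nonempty := by
    refine ⟨∅, mem_filter.2 ⟨empty_mem_powerset _, ⟨?_, ?_, ?_, ?_, ?_, ?_⟩, ?_⟩⟩
    · intro x y b h; exact absurd h (notMem_empty _)
    · intro x y b b' h; exact absurd h (notMem_empty _)
    · intro x y b b' h; exact absurd h (notMem_empty _)
    · intro x y b b' h; exact absurd h (notMem_empty _)
    · intro x; simp
    · intro x; simp
    · intro i b _; simp [cnt]
  obtain ⟨E, hE, hmax⟩ := exists_max_image 𝓔 card hne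
  obtain ⟨hE0, hX, hc⟩ := mem_filter.1 hE
  refine ⟨E, hX, ?_⟩
  intro i b hb
  by_contra hcon
  have hlt : cnt pt E i b < m i b := lt_of_le_of_ne (hc i b hb) hcon
  -- the number of triples
  have hEc : E.card ≤ σ * Δ := by
    refine le_trans ?_ hM
    rw [card_eq_sum_card_fiberwise (f := fun p => p.2.2) (t := P2)
      (fun p hp => mem_coe.2 (hX.adj p.1 p.2.1 p.2.2 hp).2.2.2.2.1)]
    refine sum_le_sum fun b' hb' => ?_
    rw [cnt_col pt]
    exact add_le_add (hc false b' hb') (hc true b' hb')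
  have hEb : (E.filter (fun p => p.2.2 = b)).card ≤ μ := by
    rw [cnt_col pt]
    exact (add_le_add (hc false b hb) (hc true b hb)).trans (hμ b hb)
  have hXs := sat_card E (fun p => p.1) Δ σ hΔ hEc
  have hYs := sat_card E (fun p => p.2.1) Δ σ hΔ hEc
  set Xs := univ.filter (fun x => Δ ≤ (E.filter (fun p => p.1 = x)).card) with hXs'
  set Ys := univ.filter (fun x => Δ ≤ (E.filter (fun p => p.2.1 = x)).card) with hYs'
  set Ux := (E.filter (fun p => p.2.2 = b)).image (fun p => p.1) with hUx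
  set Uy := (E.filter (fun p => p.2.2 = b)).image (fun p => p.2.1) with hUy
  have hUxc : Ux.card ≤ μ := card_image_le.trans hEb
  have hUyc : Uy.card ≤ μ := card_image_le.trans hEb
  -- the vertex `x`
  obtain ⟨x, hx, hx'⟩ := exists_mem_notMem_of_card_lt_card
    (s := Ux ∪ Xs) (t := qtr sd pt false i \ Bad b) (lt_of_le_of_lt
      ((card_union_le _ _).trans (add_le_add hUxc hXs)) (hA i b hb))
  obtain ⟨hxq, hxB⟩ := mem_sdiff.1 hx
  have hxq' : sd x = false ∧ pt x = i := by
    unfold qtr at hxq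
    exact (mem_filter.1 hxq).2
  have hx1 : x ∉ Ux := fun h => hx' (mem_union_left _ h)
  have hx2 : x ∉ Xs := fun h => hx' (mem_union_right _ h)
  have hxd : (E.filter (fun p => p.1 = x)).card < Δ := by
    by_contra h
    exact hx2 (mem_filter.2 ⟨mem_univ _, not_lt.1 h⟩)
  -- the vertex `y`
  obtain ⟨y, hy, hy'⟩ := exists_mem_notMem_of_card_lt_card
    (s := Uy ∪ Ys ∪ (E.filter (fun p => p.1 = x)).image (fun p => p.2.1))
    (t := (nb G x ∩ prt pt (!i)) \ Bad b) (lt_of_le_of_lt
      ((card_union_le _ _).trans (add_le_add ((card_union_le _ _).trans (add_le_add hUyc hYs))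
        (card_image_le.trans hxd.le))) (hB x (!i) b hb hxq'.1))
  obtain ⟨hyq, hyB⟩ := mem_sdiff.1 hy
  obtain ⟨hyn, hyp⟩ := mem_inter.1 hyq
  have hadj : G.Adj x y := by
    unfold nb at hyn
    exact (mem_filter.1 hyn).2
  have hyp' : pt y = !i := by
    unfold prt at hyp
    exact (mem_filter.1 hyp).2
  have hys : sd y = true := by
    have := hbip x y hadj
    rw [hxq'.1] at this
    cases h : sd y
    · exact absurd h.symm this
    · rfl
  have hy1 : y ∉ Uy := fun h => hy' (mem_union_left _ (mem_union_left _ h))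
  have hy2 : y ∉ Ys := fun h => hy' (mem_union_left _ (mem_union_right _ h))
  have hy3 : ∀ b', (x, y, b') ∉ E := fun b' h => hy' (mem_union_right _
    (mem_image.2 ⟨(x, y, b'), mem_filter.2 ⟨h, rfl⟩, rfl⟩))
  have hyd : (E.filter (fun p => p.2.1 = y)).card < Δ := by
    by_contra h
    exact hy2 (mem_filter.2 ⟨mem_univ _, not_lt.1 h⟩)
  have hx3 : ∀ y', (x, y', b) ∉ E := fun y' h => hx1
    (mem_image.2 ⟨(x, y', b), mem_filter.2 ⟨h, rfl⟩, rfl⟩)
  have hy4 : ∀ x', (x', y, b) ∉ E := fun x' h => hy1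
    (mem_image.2 ⟨(x', y, b), mem_filter.2 ⟨h, rfl⟩, rfl⟩)
  -- the new set
  have hnew : (x, y, b) ∉ E := hy3 b
  have hX' : XE G sd pt P2 Bad Δ (insert (x, y, b) E) := by
    refine ⟨?_, ?_, ?_, ?_, ?_, ?_⟩
    · intro x' y' b' h
      rcases mem_insert.1 h with h | h
      · simp only [Prod.mk.injEq] at h
        obtain ⟨rfl, rfl, rfl⟩ := h
        exact ⟨hadj, hxq'.1, hys, by rw [hyp', hxq'.2], hb, hxB, hyB⟩
      · exact hX.adj x' y' b' h
    · intro x' y' b1 b2 h h'
      rcases mem_insert.1 h with h | h <;> rcases mem_insert.1 h' with h' | h'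
      · simp only [Prod.mk.injEq] at h h'
        rw [h.2.2, h'.2.2]
      · simp only [Prod.mk.injEq] at h
        rw [h.1, h.2.1] at h'
        exact absurd h' (hy3 _)
      · simp only [Prod.mk.injEq] at h'
        rw [h'.1, h'.2.1] at h
        exact absurd h (hy3 _)
      · exact hX.one x' y' b1 b2 h h'
    · intro x' y1 y2 b' h h'
      rcases mem_insert.1 h with h | h <;> rcases mem_insert.1 h' with h' | h'
      · simp only [Prod.mk.injEq] at h h'
        rw [h.2.1, h'.2.1]
      · simp only [Prod.mk.injEq] at h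
        rw [h.1, h.2.2] at h'
        exact absurd h' (hx3 _)
      · simp only [Prod.mk.injEq] at h'
        rw [h'.1, h'.2.2] at h
        exact absurd h (hx3 _)
      · exact hX.r x' y1 y2 b' h h'
    · intro x1 x2 y' b' h h'
      rcases mem_insert.1 h with h | h <;> rcases mem_insert.1 h' with h' | h'
      · simp only [Prod.mk.injEq] at h h'
        rw [h.1, h'.1]
      · simp only [Prod.mk.injEq] at h
        rw [h.2.1, h.2.2] at h'
        exact absurd h' (hy4 _)
      · simp only [Prod.mk.injEq] at h'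
        rw [h'.2.1, h'.2.2] at h
        exact absurd h (hy4 _)
      · exact hX.l x1 x2 y' b' h h'
    · intro x'
      rw [filter_insert]
      split_ifs with h
      · simp only at h
        subst h
        exact (card_insert_le _ _).trans hxd
      · exact hX.dx x'
    · intro y'
      rw [filter_insert]
      split_ifs with h
      · simp only at h
        subst h
        exact (card_insert_le _ _).trans hyd
      · exact hX.dy y'
  have hc' : ∀ i', ∀ b' ∈ P2, cnt pt (insert (x, y, b) E) i' b' ≤ m i' b' := by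
    intro i' b' hb'
    unfold cnt
    rw [filter_insert]
    split_ifs with h
    · simp only at h
      obtain ⟨h1, rfl⟩ := h
      have h2 : i' = i := h1.symm.trans hxq'.2
      subst h2
      exact (card_insert_le _ _).trans hlt
    · exact hc i' b' hb'
  have hmem : insert (x, y, b) E ∈ 𝓔 := by
    refine mem_filter.2 ⟨mem_powerset.2 (insert_subset_iff.2 ⟨?_, mem_powerset.1 hE0⟩), hX', hc'⟩
    exact mem_product.2 ⟨mem_univ _, mem_product.2 ⟨mem_univ _, hb⟩⟩
  have := hmax _ hmem
  rw [card_insert_of_notMem hnew] at this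
  omega

end xpe

end Pool.Agent.Work.MP_db9399_x4_helper44
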